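import Mathlib

set_option autoImplicit false

/-!
Counting lemma: a finite group acting so that every non-identity element has one or two fixed points.
-/

namespace Pool.Agent.InvGen

open Finset

section

variable {H X : Type*} [Group H] [MulAction H X]

/-- centres: points that are the unique fixed point of some non-identity element -/
def Centre (H : Type*) {X : Type*} [Group H] [MulAction H X] (x : X) : Prop :=
  ∃ h : H, h ≠ 1 ∧ ∀ y : X, h • y = y ↔ y = x

lemma Centre.smul {x : X} (hx : Centre H x) (g : H) : Centre H (g • x) := by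
  obtain ⟨h, h1, h2⟩ := hx
  refine ⟨g * h * g⁻¹, ?_, fun y => ?_⟩
  · intro h3
    apply h1
    have : h = g⁻¹ * (g * h * g⁻¹) * g := by group
    rw [this, h3]; group
  · rw [mul_smul, mul_smul, smul_eq_iff_eq_inv_smul, h2, inv_smul_eq_iff]

variable [Fintype H]

/-- orbit as a finset -/
noncomputable def orb (H : Type*) {X : Type*} [Group H] [MulAction H X] [Fintype H] (x : X) :
    Finset X := by
  classical exact univ.image (fun h : H => h • x)

lemma mem_orb {x y : X} : y ∈ orb H x ↔ ∃ h : H, h • x = y := by
  classical
  simp [orb]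

/-- order of the stabiliser -/
noncomputable def st (H : Type*) {X : Type*} [Group H] [MulAction H X] [Fintype H] (x : X) : ℕ := by
  classical exact (univ.filter (fun h : H => h • x = x)).card

lemma st_smul (x : X) (g : H) : st H (g • x) = st H x := by
  classical
  unfold st
  apply Finset.card_bij (fun (h : H) _ => g⁻¹ * h * g)
  · intro h hh
    simp only [mem_filter, mem_univ, true_and] at hh ⊢
    rw [mul_smul, mul_smul, hh, inv_smul_smul]
  · intro a _ b _ hab
    simpa using hab
  · intro b hb
    simp only [mem_filter, mem_univ, true_and] at hb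
    refine ⟨g * b * g⁻¹, ?_, by group⟩
    simp only [mem_filter, mem_univ, true_and]
    rw [mul_smul, mul_smul, inv_smul_smul, hb]

lemma sum_st_orb (x : X) : ∑ y ∈ orb H x, st H y = Fintype.card H := by
  classical
  have h1 : ∑ y ∈ orb H x, st H y = ∑ y ∈ orb H x, (univ.filter (fun h : H => h • x = y)).card := by
    apply Finset.sum_congr rfl
    intro y hy
    obtain ⟨g, rfl⟩ := mem_orb.mp hy
    rw [st_smul]
    unfold st
    apply Finset.card_bij (fun (h : H) _ => g * h)
    · intro h hh
      simp only [mem_filter, mem_univ, true_and] at hh ⊢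
      rw [mul_smul, hh]
    · intro a _ b _ hab
      simpa using hab
    · intro b hb
      simp only [mem_filter, mem_univ, true_and] at hb
      refine ⟨g⁻¹ * b, ?_, by group⟩
      simp only [mem_filter, mem_univ, true_and]
      rw [mul_smul, hb, inv_smul_smul]
  rw [h1]
  have h2 := Finset.card_eq_sum_card_fiberwise (f := fun h : H => h • x) (s := univ)
    (t := orb H x) (fun h _ => by
      simp only [Finset.mem_coe]
      exact mem_orb.mpr ⟨h, rfl⟩)
  rw [← Finset.card_univ, h2]

/-- two is a lower bound of the stabiliser order means orbits have at most half the size -/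
lemma two_mul_orb_le (x : X) (hx : ∃ h : H, h ≠ 1 ∧ h • x = x) :
    2 * (orb H x).card ≤ Fintype.card H := by
  classical
  rw [← sum_st_orb x]
  have h1 : ∀ y ∈ orb H x, 2 ≤ st H y := by
    intro y hy
    obtain ⟨g, rfl⟩ := mem_orb.mp hy
    rw [st_smul]
    obtain ⟨h, h1, h2⟩ := hx
    unfold st
    have h3 : ({1, h} : Finset H) ⊆ univ.filter (fun h : H => h • x = x) := by
      intro k hk
      simp only [mem_insert, mem_singleton] at hk
      simp only [mem_filter, mem_univ, true_and]
      rcases hk with rfl | rfl
      · exact one_smul _ _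
      · exact h2
    calc 2 = ({1, h} : Finset H).card := by rw [Finset.card_pair h1.symm]
      _ ≤ _ := Finset.card_le_card h3
  calc 2 * (orb H x).card = ∑ y ∈ orb H x, 2 := by rw [Finset.sum_const]; simp [mul_comm]
    _ ≤ _ := Finset.sum_le_sum h1

lemma disjoint_orb {x y : X} (h : y ∉ orb H x) : Disjoint (orb H x) (orb H y) := by
  classical
  rw [Finset.disjoint_left]
  intro z hz hz'
  obtain ⟨a, ha⟩ := mem_orb.mp hz
  obtain ⟨b, hb⟩ := mem_orb.mp hz'
  apply h
  rw [mem_orb]
  refine ⟨b⁻¹ * a, ?_⟩
  rw [mul_smul, ha, ← hb, inv_smul_smul]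

variable (hfix : ∀ h : H, h ≠ 1 → ∃ a b : X, ∀ x : X, h • x = x ↔ (x = a ∨ x = b))

include hfix

/-- the main count -/
lemma main_count (A B : Finset X) (hB : ∀ x ∈ B, Centre H x) :
    ∑ x ∈ A, st H x + B.card + 2 ≤ A.card + 2 * Fintype.card H := by
  classical
  -- the unipotent elements
  let U : Finset H := univ.filter (fun h => h ≠ 1 ∧ ∃ x : X, ∀ y : X, h • y = y ↔ y = x)
  have hU : B.card ≤ U.card := by
    choose! f hf1 hf2 using hB
    apply Finset.card_le_card_of_injOn f
    · intro x hx
      simp only [U, Finset.mem_coe, mem_filter, mem_univ, true_and]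
      exact ⟨hf1 x hx, x, hf2 x hx⟩
    · intro x hx y hy hxy
      have h1 := (hf2 x hx x).2 rfl
      rw [hxy] at h1
      exact (hf2 y hy x).1 h1
  have h1 : ∑ x ∈ A, st H x = ∑ h : H, (A.filter (fun x => h • x = x)).card := by
    unfold st
    simp_rw [Finset.card_filter]
    rw [Finset.sum_comm]
  rw [h1]
  have h2 : ∀ h : H, (A.filter (fun x => h • x = x)).card + (if h ∈ U then 1 else 0) +
      (if h = 1 then 2 else 0) ≤ 2 + (if h = 1 then A.card else 0) := by
    intro h
    by_cases hh : h = 1
    · have : h ∉ U := by simp [U, hh]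
      rw [if_pos hh, if_pos hh, if_neg this]
      have := Finset.card_filter_le A (fun x => h • x = x)
      omega
    · rw [if_neg hh, if_neg hh]
      split_ifs with hu
      · simp only [U, mem_filter, mem_univ, true_and] at hu
        obtain ⟨_, x, hx⟩ := hu
        have : A.filter (fun x => h • x = x) ⊆ {x} := by
          intro y hy
          simp only [mem_filter] at hy
          simpa using (hx y).1 hy.2
        have := Finset.card_le_card this
        simp at this
        omega
      · obtain ⟨a, b, hab⟩ := hfix h hh
        have : A.filter (fun x => h • x = x) ⊆ {a, b} := by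
          intro y hy
          simp only [mem_filter] at hy
          simpa using (hab y).1 hy.2
        have := Finset.card_le_card this
        have := Finset.card_le_two (a := a) (b := b)
        omega
  have h3 := Finset.sum_le_sum (s := univ) (fun h _ => h2 h)
  rw [Finset.sum_add_distrib, Finset.sum_add_distrib, Finset.sum_add_distrib] at h3
  simp only [Finset.sum_ite_eq', Finset.sum_const, Finset.card_univ, mem_univ, if_true,
    Finset.sum_ite_mem, Finset.univ_inter, smul_eq_mul, mul_one] at h3
  omega

/-- the group is transitive on centres -/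
theorem transitive_on_centres {x y : X} (hx : Centre H x) (hy : Centre H y) :
    ∃ h : H, h • x = y := by
  classical
  by_contra hcon
  have hd : Disjoint (orb H x) (orb H y) := disjoint_orb (by rwa [mem_orb])
  have h1 := main_count hfix (orb H x ∪ orb H y) (orb H x ∪ orb H y) (by
    intro z hz
    rw [Finset.mem_union] at hz
    rcases hz with hz | hz
    · obtain ⟨g, rfl⟩ := mem_orb.mp hz
      exact hx.smul g
    · obtain ⟨g, rfl⟩ := mem_orb.mp hz
      exact hy.smul g)
  rw [Finset.sum_union hd, sum_st_orb, sum_st_orb] at h1
  omega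

/-- the group is transitive on non-centres with non-trivial stabiliser, if there is a centre -/
theorem transitive_on_rest {x y z : X} (hx : Centre H x)
    (hy : ¬ Centre H y) (hy' : ∃ h : H, h ≠ 1 ∧ h • y = y)
    (hz : ¬ Centre H z) (hz' : ∃ h : H, h ≠ 1 ∧ h • z = z) :
    ∃ h : H, h • y = z := by
  classical
  by_contra hcon
  have hd1 : Disjoint (orb H y) (orb H z) := disjoint_orb (by rwa [mem_orb])
  have hc : ∀ w ∈ orb H x, Centre H w := by
    intro w hw
    obtain ⟨g, rfl⟩ := mem_orb.mp hw
    exact hx.smul g
  have hself : ∀ w : X, w ∈ orb H w := fun w => mem_orb.mpr ⟨1, one_smul _ _⟩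
  have hd2 : Disjoint (orb H x) (orb H y) := by
    apply disjoint_orb
    intro h
    exact hy (hc y h)
  have hd3 : Disjoint (orb H x) (orb H z) := by
    apply disjoint_orb
    intro h
    exact hz (hc z h)
  have hd4 : Disjoint (orb H x) (orb H y ∪ orb H z) := by
    rw [Finset.disjoint_union_right]
    exact ⟨hd2, hd3⟩
  have h1 := main_count hfix (orb H x ∪ (orb H y ∪ orb H z)) (orb H x) hc
  rw [Finset.sum_union hd4, Finset.sum_union hd1, sum_st_orb, sum_st_orb, sum_st_orb,
    Finset.card_union_of_disjoint hd4, Finset.card_union_of_disjoint hd1] at h1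
  have h2 := two_mul_orb_le y hy'
  have h3 := two_mul_orb_le z hz'
  omega

end

end Pool.Agent.InvGen
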