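import Mathlib

set_option autoImplicit false

/-!
The field K0: elements of the algebraic closure of F_2 whose degree is a power of three.
-/

namespace Pool.Agent.InvGen

open Polynomial

/-- the algebraic closure of the field with two elements -/
abbrev L : Type := AlgebraicClosure (ZMod 2)

instance charL : CharP L 2 := charP_of_injective_algebraMap (algebraMap (ZMod 2) L).injective 2

lemma two_eq_zero : (2 : L) = 0 := CharTwo.two_eq_zero

lemma neg_eq (x : L) : -x = x := CharTwo.neg_eq x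

lemma add_self (x : L) : x + x = 0 := CharTwo.add_self_eq_zero x

/-- the fixed field of the n-th power of Frobenius -/
noncomputable def F (n : ℕ) : Subfield L := (iterateFrobenius L 2 n).eqLocusField (RingHom.id L)

lemma mem_F {n : ℕ} {x : L} : x ∈ F n ↔ x ^ (2 ^ n) = x := Iff.rfl

lemma F_dvd {m n : ℕ} (h : m ∣ n) : F m ≤ F n := by
  obtain ⟨j, rfl⟩ := h
  intro x hx
  rw [mem_F] at hx ⊢
  induction j with
  | zero => simp
  | succ j ih =>
    rw [Nat.mul_succ, pow_add, pow_mul, ih, hx]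

lemma F_mono {k l : ℕ} (h : k ≤ l) : F (3 ^ k) ≤ F (3 ^ l) := F_dvd (pow_dvd_pow 3 h)

lemma F_finite {n : ℕ} (hn : n ≠ 0) : (F n : Set L).Finite := by
  have h1 : (X ^ (2 ^ n) - X : L[X]) ≠ 0 := by
    apply FiniteField.X_pow_card_pow_sub_X_ne_zero L hn (by norm_num)
  apply (Polynomial.rootSet_finite (X ^ (2 ^ n) - X : L[X]) L).subset
  intro x hx
  rw [Polynomial.mem_rootSet]
  refine ⟨h1, ?_⟩
  have : x ^ (2 ^ n) = x := hx
  simp [this]

/-- the field -/
noncomputable def K0 : Subfield L where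
  carrier := {x | ∃ k, x ∈ F (3 ^ k)}
  mul_mem' := by
    rintro a b ⟨k, hk⟩ ⟨l, hl⟩
    exact ⟨max k l, mul_mem (F_mono (le_max_left k l) hk) (F_mono (le_max_right k l) hl)⟩
  one_mem' := ⟨0, one_mem _⟩
  add_mem' := by
    rintro a b ⟨k, hk⟩ ⟨l, hl⟩
    exact ⟨max k l, add_mem (F_mono (le_max_left k l) hk) (F_mono (le_max_right k l) hl)⟩
  zero_mem' := ⟨0, zero_mem _⟩
  neg_mem' := by
    rintro a ⟨k, hk⟩
    exact ⟨k, neg_mem hk⟩
  inv_mem' := by
    rintro a ⟨k, hk⟩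
    exact ⟨k, inv_mem hk⟩

lemma mem_K0 {x : L} : x ∈ K0 ↔ ∃ k, x ∈ F (3 ^ k) := Iff.rfl

lemma K0_sqrt {x : L} (hx : x ∈ K0) : ∃ y ∈ K0, y ^ 2 = x := by
  obtain ⟨k, hk⟩ := hx
  have hx' : x ∈ K0 := ⟨k, hk⟩
  refine ⟨x ^ (2 ^ (3 ^ k - 1)), pow_mem hx' _, ?_⟩
  rw [← pow_mul, ← pow_succ, Nat.sub_add_cancel (Nat.one_le_pow _ _ (by norm_num))]
  exact hk

lemma K0_of_sq {x : L} (hx : x ^ 2 ∈ K0) : x ∈ K0 := by
  obtain ⟨y, hy, hxy⟩ := K0_sqrt hx
  have h1 : (y - x) ^ 2 = 0 := by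
    have : (y - x) ^ 2 = y ^ 2 - x ^ 2 + (2 : L) * (x ^ 2 - x * y) := by ring
    rw [this, two_eq_zero, hxy]; ring
  have h2 : y = x := by
    have := pow_eq_zero_iff (two_ne_zero) |>.mp h1
    exact sub_eq_zero.mp this
  rwa [← h2]

lemma pow_mod_three (k : ℕ) : ∃ j, 2 ^ (3 ^ k) = 3 * j + 2 := by
  have h1 : Odd (3 ^ k) := Odd.pow (by decide)
  obtain ⟨m, hm⟩ := h1
  rw [hm, pow_succ, pow_mul]
  have h2 : ∃ j, (2 ^ 2) ^ m = 3 * j + 1 := by
    induction m generalizing k with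
    | zero => exact ⟨0, by norm_num⟩
    | succ m ih =>
      have : ∀ m, ∃ j, (2 ^ 2) ^ m = 3 * j + 1 := by
        intro m
        induction m with
        | zero => exact ⟨0, by norm_num⟩
        | succ m ih => obtain ⟨j, hj⟩ := ih; exact ⟨4 * j + 1, by rw [pow_succ, hj]; ring⟩
      exact this _
  obtain ⟨j, hj⟩ := h2
  exact ⟨2 * j, by rw [hj]; ring⟩

lemma no_cube_root {x : L} (hx : x ^ 2 + x + 1 = 0) : x ∉ K0 := by
  rintro ⟨k, hk⟩
  rw [mem_F] at hk
  obtain ⟨j, hj⟩ := pow_mod_three k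
  have h3 : x ^ 3 = 1 := by
    have : x ^ 3 - 1 = (x - 1) * (x ^ 2 + x + 1) := by ring
    rw [hx, mul_zero] at this
    exact sub_eq_zero.mp this
  rw [hj, pow_add, pow_mul, h3, one_pow, one_mul] at hk
  rw [hk] at hx
  rw [add_self, zero_add] at hx
  exact one_ne_zero hx

lemma K0_infinite : (K0 : Set L).Infinite := by
  intro hfin
  obtain ⟨n, hn⟩ : ∃ n, n = Set.ncard (K0 : Set L) := ⟨_, rfl⟩
  -- F (3^n) has at least 2^(3^n) elements
  have h1 : 2 ^ (3 ^ n) ≤ Set.ncard (K0 : Set L) := by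
    have : Fact (Nat.Prime 2) := ⟨Nat.prime_two⟩
    let f : GaloisField 2 (3 ^ n) →ₐ[ZMod 2] L := IsAlgClosed.lift
    have h2 : Set.range f ⊆ (K0 : Set L) := by
      rintro _ ⟨y, rfl⟩
      refine ⟨n, ?_⟩
      rw [mem_F, ← map_pow]
      congr 1
      have : Finite (GaloisField 2 (3 ^ n)) := inferInstance
      have : Fintype (GaloisField 2 (3 ^ n)) := Fintype.ofFinite _
      have h3 := FiniteField.pow_card y
      rw [← Nat.card_eq_fintype_card, GaloisField.card 2 (3 ^ n) (by positivity)] at h3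
      exact h3
    calc 2 ^ (3 ^ n) = Nat.card (GaloisField 2 (3 ^ n)) :=
          (GaloisField.card 2 (3 ^ n) (by positivity)).symm
      _ = Set.ncard (Set.range f) := by
          have hinj : Function.Injective (fun y => f y) := f.injective
          rw [← Set.image_univ]
          rw [Set.ncard_image_of_injective (Set.univ : Set (GaloisField 2 (3 ^ n))) hinj,
            Set.ncard_univ]
      _ ≤ _ := Set.ncard_le_ncard h2 hfin
  rw [← hn] at h1
  have h4 : n < 2 ^ (3 ^ n) := by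
    calc n < 2 ^ n := Nat.lt_two_pow_self
      _ ≤ 2 ^ (3 ^ n) := Nat.pow_le_pow_right (by norm_num) (Nat.lt_pow_self (by norm_num)).le
  omega

end Pool.Agent.InvGen
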