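import Mathlib
import Pool.Agent.InvGen.Count
import Pool.Agent.InvGen.Field

set_option autoImplicit false

namespace Pool.Agent.InvGen

open Matrix

/-- the general linear group -/
abbrev GL2 : Type := Matrix.GeneralLinearGroup (Fin 2) L

noncomputable instance decL : DecidableEq L := Classical.decEq _

/-- matrices of determinant one -/
noncomputable def mk (a b c d : L) (h : a * d - b * c = 1) : GL2 where
  val := !![a, b; c, d]
  inv := !![d, -b; -c, a]
  val_inv := by
    rw [Matrix.mul_fin_two, Matrix.one_fin_two]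
    have e1 : a * d + b * -c = 1 := by linear_combination h
    have e2 : a * -b + b * a = 0 := by ring
    have e3 : c * d + d * -c = 0 := by ring
    have e4 : c * -b + d * a = 1 := by linear_combination h
    rw [e1, e2, e3, e4]
  inv_val := by
    rw [Matrix.mul_fin_two, Matrix.one_fin_two]
    have e1 : d * a + -b * c = 1 := by linear_combination h
    have e2 : d * b + -b * d = 0 := by ring
    have e3 : -c * a + a * c = 0 := by ring
    have e4 : -c * b + a * d = 1 := by linear_combination h
    rw [e1, e2, e3, e4]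

lemma mk_congr {a b c d a' b' c' d' : L} (h : a * d - b * c = 1) (ha : a = a') (hb : b = b')
    (hc : c = c') (hd : d = d') :
    mk a b c d h = mk a' b' c' d' (by rw [← ha, ← hb, ← hc, ← hd]; exact h) := by
  subst ha hb hc hd; rfl

lemma mk_inj {a b c d a' b' c' d' : L} {h : a * d - b * c = 1} {h' : a' * d' - b' * c' = 1}
    (e : mk a b c d h = mk a' b' c' d' h') : a = a' ∧ b = b' ∧ c = c' ∧ d = d' := by
  have h1 := congrArg (fun g : GL2 => g.1) e
  simp only [mk] at h1
  refine ⟨?_, ?_, ?_, ?_⟩
  · simpa using congrFun (congrFun h1 0) 0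
  · simpa using congrFun (congrFun h1 0) 1
  · simpa using congrFun (congrFun h1 1) 0
  · simpa using congrFun (congrFun h1 1) 1

lemma mk_mul (a b c d a' b' c' d' : L) (h : a * d - b * c = 1) (h' : a' * d' - b' * c' = 1) :
    mk a b c d h * mk a' b' c' d' h' =
      mk (a * a' + b * c') (a * b' + b * d') (c * a' + d * c') (c * b' + d * d')
        (by linear_combination (a' * d' - b' * c') * h + h') := by
  apply Units.ext
  show !![a, b; c, d] * !![a', b'; c', d'] = _
  rw [Matrix.mul_fin_two]
  rfl

lemma mk_inv (a b c d : L) (h : a * d - b * c = 1) :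
    (mk a b c d h)⁻¹ = mk d (-b) (-c) a (by linear_combination h) := by
  apply Units.ext
  rfl

lemma mk_one : (1 : GL2) = mk 1 0 0 1 (by ring) := by
  apply Units.ext
  simp [mk, Matrix.one_fin_two]

/-- the special linear group over K0, as a subgroup of GL_2(L) -/
def G : Subgroup GL2 where
  carrier := {g | ∃ (a b c d : L) (h : a * d - b * c = 1), a ∈ K0 ∧ b ∈ K0 ∧ c ∈ K0 ∧ d ∈ K0 ∧
    g = mk a b c d h}
  mul_mem' := by
    rintro _ _ ⟨a, b, c, d, h, ha, hb, hc, hd, rfl⟩ ⟨a', b', c', d', h', ha', hb', hc', hd', rfl⟩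
    refine ⟨_, _, _, _, _, ?_, ?_, ?_, ?_, mk_mul ..⟩
    · exact add_mem (mul_mem ha ha') (mul_mem hb hc')
    · exact add_mem (mul_mem ha hb') (mul_mem hb hd')
    · exact add_mem (mul_mem hc ha') (mul_mem hd hc')
    · exact add_mem (mul_mem hc hb') (mul_mem hd hd')
  one_mem' := ⟨1, 0, 0, 1, _, one_mem _, zero_mem _, zero_mem _, one_mem _, mk_one⟩
  inv_mem' := by
    rintro _ ⟨a, b, c, d, h, ha, hb, hc, hd, rfl⟩
    exact ⟨_, _, _, _, _, hd, neg_mem hb, neg_mem hc, ha, mk_inv ..⟩

/-- elements of G with entries in the field with 2^(3^n) elements -/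
def Gn (n : ℕ) : Subgroup GL2 where
  carrier := {g | ∃ (a b c d : L) (h : a * d - b * c = 1), a ∈ F (3 ^ n) ∧ b ∈ F (3 ^ n) ∧
    c ∈ F (3 ^ n) ∧ d ∈ F (3 ^ n) ∧ g = mk a b c d h}
  mul_mem' := by
    rintro _ _ ⟨a, b, c, d, h, ha, hb, hc, hd, rfl⟩ ⟨a', b', c', d', h', ha', hb', hc', hd', rfl⟩
    refine ⟨_, _, _, _, _, ?_, ?_, ?_, ?_, mk_mul ..⟩
    · exact add_mem (mul_mem ha ha') (mul_mem hb hc')
    · exact add_mem (mul_mem ha hb') (mul_mem hb hd')
    · exact add_mem (mul_mem hc ha') (mul_mem hd hc')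
    · exact add_mem (mul_mem hc hb') (mul_mem hd hd')
  one_mem' := ⟨1, 0, 0, 1, _, one_mem _, zero_mem _, zero_mem _, one_mem _, mk_one⟩
  inv_mem' := by
    rintro _ ⟨a, b, c, d, h, ha, hb, hc, hd, rfl⟩
    exact ⟨_, _, _, _, _, hd, neg_mem hb, neg_mem hc, ha, mk_inv ..⟩

lemma Gn_mono {m n : ℕ} (h : m ≤ n) : Gn m ≤ Gn n := by
  rintro _ ⟨a, b, c, d, h', ha, hb, hc, hd, rfl⟩
  exact ⟨a, b, c, d, h', F_mono h ha, F_mono h hb, F_mono h hc, F_mono h hd, rfl⟩

lemma Gn_exists {g : GL2} (hg : g ∈ G) : ∃ n, g ∈ Gn n := by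
  obtain ⟨a, b, c, d, h, ⟨na, ha⟩, ⟨nb, hb⟩, ⟨nc, hc⟩, ⟨nd, hd⟩, rfl⟩ := hg
  let n := na + nb + nc + nd
  have e1 : na ≤ n := by omega
  have e2 : nb ≤ n := by omega
  have e3 : nc ≤ n := by omega
  have e4 : nd ≤ n := by omega
  exact ⟨n, a, b, c, d, h, F_mono e1 ha, F_mono e2 hb, F_mono e3 hc, F_mono e4 hd, rfl⟩

lemma Gn_finite (n : ℕ) : (Gn n : Set GL2).Finite := by
  have hF : (F (3 ^ n) : Set L).Finite := F_finite (by positivity)
  have h1 : Set.Finite {m : Matrix (Fin 2) (Fin 2) L | ∀ i j, m i j ∈ (F (3 ^ n) : Set L)} := by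
    have := Set.Finite.pi' (fun _ : Fin 2 => Set.Finite.pi' (fun _ : Fin 2 => hF))
    exact this
  apply Set.Finite.of_injOn (f := fun g : GL2 => g.1) _ _ h1
  · rintro _ ⟨a, b, c, d, h, ha, hb, hc, hd, rfl⟩ i j
    fin_cases i <;> fin_cases j <;> simpa [mk]
  · intro x _ y _ hxy
    exact Units.ext hxy

/-! ### action on the projective line -/

lemma smul_infty (a b c d : L) (h : a * d - b * c = 1) :
    mk a b c d h • (OnePoint.infty : OnePoint L) = OnePoint.infty ↔ c = 0 := by
  rw [OnePoint.smul_infty_eq_self_iff]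
  simp [mk]

lemma smul_coe (a b c d : L) (h : a * d - b * c = 1) (z : L) :
    mk a b c d h • (z : OnePoint L) = z ↔ c * z ^ 2 + (d - a) * z - b = 0 := by
  rw [← Matrix.GeneralLinearGroup.fixpointPolynomial_aeval_eq_zero_iff]
  simp [Matrix.GeneralLinearGroup.fixpointPolynomial, mk]

/-- K0-rational points -/
def Rat (x : OnePoint L) : Prop := ∀ z : L, x = (z : OnePoint L) → z ∈ K0

lemma Rat_infty : Rat OnePoint.infty := by
  intro z hz
  exact absurd hz (OnePoint.infty_ne_coe z)

lemma Rat_smul {g : GL2} (hg : g ∈ G) {x : OnePoint L} (hx : Rat x) : Rat (g • x) := by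
  obtain ⟨a, b, c, d, h, ha, hb, hc, hd, rfl⟩ := hg
  induction x using OnePoint.rec with
  | infty =>
    rw [OnePoint.smul_infty_eq_ite]
    split_ifs with h1
    · exact Rat_infty
    · intro z hz
      rw [OnePoint.coe_eq_coe] at hz
      rw [← hz]
      exact div_mem (by simpa [mk] using ha) (by simpa [mk] using hc)
  | coe w =>
    have hw : w ∈ K0 := hx w rfl
    rw [OnePoint.smul_some_eq_ite]
    split_ifs with h1
    · exact Rat_infty
    · intro z hz
      rw [OnePoint.coe_eq_coe] at hz
      rw [← hz]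
      apply div_mem
      · simp only [mk, Matrix.of_apply, Matrix.cons_val_zero, Matrix.cons_val_one,
          Matrix.cons_val_fin_one]
        exact add_mem (mul_mem ha hw) hb
      · simp only [mk, Matrix.of_apply, Matrix.cons_val_zero, Matrix.cons_val_one,
          Matrix.cons_val_fin_one]
        exact add_mem (mul_mem hc hw) hd

/-- non-identity elements of determinant one have one or two fixed points -/
lemma two_fix (a b c d : L) (h : a * d - b * c = 1) (hne : mk a b c d h ≠ 1) :
    ∃ p q : OnePoint L, ∀ x : OnePoint L, mk a b c d h • x = x ↔ (x = p ∨ x = q) := by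
  by_cases hc : c = 0
  · subst hc
    by_cases hda : d = a
    · subst hda
      -- b ≠ 0
      have hd1 : d = 1 := by
        have h1 : (d - 1) ^ 2 = 0 := by
          have : (d - 1) ^ 2 = (d * d - b * 0) - 1 + 2 * (1 - d) := by ring
          rw [this, h, two_eq_zero]; ring
        have := pow_eq_zero_iff (two_ne_zero) |>.mp h1
        exact sub_eq_zero.mp this
      have hb : b ≠ 0 := by
        rintro rfl
        apply hne
        rw [mk_one]
        exact mk_congr _ hd1 rfl rfl hd1
      refine ⟨OnePoint.infty, OnePoint.infty, fun x => ?_⟩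
      induction x using OnePoint.rec with
      | infty => simp [smul_infty]
      | coe z =>
        rw [smul_coe]
        simp [hb]
    · have hda' : d - a ≠ 0 := sub_ne_zero.mpr hda
      refine ⟨OnePoint.infty, ((b / (d - a) : L) : OnePoint L), fun x => ?_⟩
      induction x using OnePoint.rec with
      | infty => simp [smul_infty]
      | coe z =>
        rw [smul_coe]
        rw [OnePoint.coe_eq_coe]
        simp only [OnePoint.coe_ne_infty, false_or]
        rw [eq_div_iff hda']
        constructor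
        · intro h1; linear_combination h1
        · intro h1; linear_combination h1
  · -- c ≠ 0 : quadratic
    obtain ⟨z, hz⟩ : ∃ z : L, c * z ^ 2 + (d - a) * z - b = 0 := by
      have hdeg : (Polynomial.C c * Polynomial.X ^ 2 + Polynomial.C (d - a) * Polynomial.X
          + Polynomial.C (-b) : Polynomial L).degree ≠ 0 := by
        rw [Polynomial.degree_quadratic hc]; decide
      obtain ⟨z, hz⟩ := IsAlgClosed.exists_root _ hdeg
      refine ⟨z, ?_⟩
      simp only [Polynomial.IsRoot.def, Polynomial.eval_add, Polynomial.eval_mul,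
        Polynomial.eval_C, Polynomial.eval_pow, Polynomial.eval_X] at hz
      linear_combination hz
    refine ⟨(z : OnePoint L), (((a - d) / c - z : L) : OnePoint L), fun x => ?_⟩
    induction x using OnePoint.rec with
    | infty =>
      rw [smul_infty]
      simp [hc, OnePoint.infty_ne_coe]
    | coe w =>
      rw [smul_coe, OnePoint.coe_eq_coe, OnePoint.coe_eq_coe]
      have h1 : c * w ^ 2 + (d - a) * w - b = c * ((w - z) * (w - ((a - d) / c - z))) := by
        field_simp
        linear_combination hz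
      rw [h1, mul_eq_zero, mul_eq_zero, sub_eq_zero, sub_eq_zero]
      simp [hc]

/-- a unique fixed point is K0-rational -/
lemma Rat_of_unique {g : GL2} (hg : g ∈ G) {x : OnePoint L} (h : ∀ y, g • y = y ↔ y = x) :
    Rat x := by
  obtain ⟨a, b, c, d, h', ha, hb, hc, hd, rfl⟩ := hg
  intro z hz
  subst hz
  have hc0 : c ≠ 0 := by
    intro hc0
    have := (h OnePoint.infty).1 ((smul_infty a b c d h').2 hc0)
    exact OnePoint.infty_ne_coe _ this
  have h1 := (smul_coe a b c d h' z).1 ((h _).2 rfl)
  have h2 : c * ((a - d) / c - z) ^ 2 + (d - a) * ((a - d) / c - z) - b = 0 := by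
    field_simp
    linear_combination c * h1
  have h3 := (h _).1 ((smul_coe a b c d h' _).2 h2)
  rw [OnePoint.coe_eq_coe] at h3
  have h4 : a - d = 0 := by
    have h5 : (a - d) / c = 2 * z := by linear_combination h3
    rw [two_eq_zero, zero_mul, div_eq_zero_iff] at h5
    exact h5.resolve_right hc0
  apply K0_of_sq
  have h6 : z ^ 2 = b / c := by
    rw [eq_div_iff hc0]
    linear_combination h1 + z * h4
  rw [h6]
  exact div_mem hb hc

end Pool.Agent.InvGen
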