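import Mathlib
import Pool.Agent.InvGen.Matrix

set_option autoImplicit false

namespace Pool.Agent.InvGen

open Matrix

/-- upper unitriangular matrices -/
noncomputable def E (x : L) : GL2 := mk 1 x 0 1 (by ring)

/-- lower unitriangular matrices -/
noncomputable def E' (x : L) : GL2 := mk 1 0 x 1 (by ring)

/-- diagonal matrices -/
noncomputable def D (x : L) (hx : x ≠ 0) : GL2 := mk x 0 0 x⁻¹ (by field_simp; ring)

lemma E_mem {x : L} (hx : x ∈ K0) : E x ∈ G :=
  ⟨_, _, _, _, _, one_mem _, hx, zero_mem _, one_mem _, rfl⟩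

lemma E'_mem {x : L} (hx : x ∈ K0) : E' x ∈ G :=
  ⟨_, _, _, _, _, one_mem _, zero_mem _, hx, one_mem _, rfl⟩

lemma D_mem {x : L} (hx : x ∈ K0) (h0 : x ≠ 0) : D x h0 ∈ G :=
  ⟨_, _, _, _, _, hx, zero_mem _, zero_mem _, inv_mem hx, rfl⟩

/-- generation: root subgroups generate -/
lemma gen (H : Subgroup GL2) (h1 : ∀ x ∈ K0, E x ∈ H) (h2 : ∀ x ∈ K0, E' x ∈ H) : G ≤ H := by
  -- case c ≠ 0
  have key : ∀ (a b c d : L) (h : a * d - b * c = 1), a ∈ K0 → b ∈ K0 → c ∈ K0 → d ∈ K0 →
      c ≠ 0 → mk a b c d h ∈ H := by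
    intro a b c d h ha hb hc hd hc0
    have e : mk a b c d h = E ((a - 1) / c) * E' c * E ((d - 1) / c) := by
      unfold E E'
      rw [mk_mul, mk_mul]
      apply mk_congr
      · field_simp; ring
      · field_simp; linear_combination -h
      · ring
      · field_simp; ring
    rw [e]
    refine mul_mem (mul_mem (h1 _ ?_) (h2 _ hc)) (h1 _ ?_)
    · exact div_mem (sub_mem ha (one_mem _)) hc
    · exact div_mem (sub_mem hd (one_mem _)) hc
  rintro _ ⟨a, b, c, d, h, ha, hb, hc, hd, rfl⟩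
  by_cases hc0 : c = 0
  · have ha0 : a ≠ 0 := by
      rintro rfl
      rw [hc0] at h
      simp at h
    have e : mk a b c d h = (E' 1)⁻¹ * (E' 1 * mk a b c d h) := by group
    rw [e]
    refine mul_mem (inv_mem (h2 1 (one_mem _))) ?_
    unfold E'
    rw [mk_mul]
    apply key
    · simpa using ha
    · simpa using hb
    · simpa [hc0] using ha
    · simpa using add_mem hb hd
    · simpa [hc0] using ha0
  · exact key _ _ _ _ _ ha hb hc hd hc0

/-- the irreducible element of order three -/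
noncomputable def s0 : GL2 := mk 0 1 1 1 (by
  have := two_eq_zero
  linear_combination -this)

lemma s0_mem : s0 ∈ G := ⟨_, _, _, _, _, zero_mem _, one_mem _, one_mem _, one_mem _, rfl⟩

/-- trace -/
noncomputable def tr (g : GL2) : L := g.1 0 0 + g.1 1 1

lemma tr_mk (a b c d : L) (h : a * d - b * c = 1) : tr (mk a b c d h) = a + d := rfl

lemma tr_conj (x g : GL2) : tr (x * g * x⁻¹) = tr g := by
  unfold tr
  have h1 : (x * g * x⁻¹).1.trace = g.1.trace := by
    simp only [Units.val_mul]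
    rw [Matrix.trace_mul_cycle, ← Units.val_mul, inv_mul_cancel, Units.val_one, one_mul]
  rw [Matrix.trace_fin_two, Matrix.trace_fin_two] at h1
  exact h1

lemma E_eq_one {x : L} (h : E x = 1) : x = 0 := by
  rw [mk_one] at h
  exact (mk_inj h).2.1

/-- the fixed point argument -/
lemma core (H : Subgroup GL2) (hHG : H ≤ G) (hc : ∀ g ∈ G, ∃ x ∈ G, x * g * x⁻¹ ∈ H)
    (hE : E 1 ∈ H) : G ≤ H := by
  -- the elliptic element
  obtain ⟨x0, hx0, hs⟩ := hc s0 s0_mem
  obtain ⟨s, hs'⟩ : ∃ s, s = x0 * s0 * x0⁻¹ := ⟨_, rfl⟩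
  rw [← hs'] at hs
  have hstr : tr s = 1 := by
    rw [hs', tr_conj]
    unfold s0; rw [tr_mk]; ring
  obtain ⟨sa, sb, sc, sd, sh, hsa, hsb, hsc, hsd, hse⟩ := hHG hs
  have hsad : sa + sd = 1 := by rw [← hstr, hse, tr_mk]
  have hsne : s ≠ 1 := by
    intro h
    rw [h, mk_one] at hse
    obtain ⟨e1, -, -, e2⟩ := mk_inj hse
    rw [← e1, ← e2, add_self] at hsad
    exact zero_ne_one hsad
  have hsc0 : sc ≠ 0 := by
    intro h
    apply no_cube_root (x := sa) _ hsa
    rw [h] at sh
    have h2 := two_eq_zero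
    linear_combination sa * hsad - sh + sa * h2
  -- no rational fixed point
  have hsfix : ∀ z : OnePoint L, s • z = z → ¬ Rat z := by
    intro z hz hr
    rw [hse] at hz
    induction z using OnePoint.rec with
    | infty => rw [smul_infty] at hz; exact hsc0 hz
    | coe z =>
      rw [smul_coe] at hz
      have hzK : z ∈ K0 := hr z rfl
      apply no_cube_root (x := sc * z + sd) _ (add_mem (mul_mem hsc hzK) hsd)
      have h2 := two_eq_zero
      linear_combination sc * hz + (sc * z + sd) * hsad - sh + (sc * z + sd) * h2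
  obtain ⟨ω, hω⟩ : ∃ ω : OnePoint L, s • ω = ω := by
    rw [hse]
    obtain ⟨p, q, hpq⟩ := two_fix sa sb sc sd sh (by rw [← hse]; exact hsne)
    exact ⟨p, (hpq p).2 (Or.inl rfl)⟩
  -- all E μ
  have hall : ∀ μ ∈ K0, E μ ∈ H := by
    intro μ hμ
    by_cases hμ0 : μ = 0
    · have : E μ = 1 := by rw [mk_one]; exact mk_congr _ rfl hμ0 rfl rfl
      rw [this]; exact one_mem _
    by_cases hμ1 : μ = 1
    · rw [hμ1]; exact hE
    obtain ⟨l, hl, hlμ⟩ := K0_sqrt hμ
    have hl0 : l ≠ 0 := by rintro rfl; apply hμ0; rw [← hlμ]; ring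
    have hl1 : l ≠ 1 := by rintro rfl; apply hμ1; rw [← hlμ]; ring
    obtain ⟨x, hx, hh⟩ := hc (D l hl0) (D_mem hl hl0)
    obtain ⟨h, hh'⟩ : ∃ h, h = x * D l hl0 * x⁻¹ := ⟨_, rfl⟩
    rw [← hh'] at hh
    -- finite level
    obtain ⟨n1, hn1⟩ := Gn_exists (hHG hE)
    obtain ⟨n2, hn2⟩ := Gn_exists (hHG hs)
    obtain ⟨n3, hn3⟩ := Gn_exists (hHG hh)
    obtain ⟨n, hn⟩ : ∃ n, n = n1 + n2 + n3 := ⟨_, rfl⟩
    let Hn : Subgroup GL2 := H ⊓ Gn n
    have hfin : Finite Hn := by
      apply Set.Finite.subset (Gn_finite n)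
      intro g hg
      exact hg.2
    have hfint : Fintype Hn := Fintype.ofFinite _
    have m1 : E 1 ∈ Hn := ⟨hE, Gn_mono (by omega) hn1⟩
    have m2 : s ∈ Hn := ⟨hs, Gn_mono (by omega) hn2⟩
    have m3 : h ∈ Hn := ⟨hh, Gn_mono (by omega) hn3⟩
    have hHnG : Hn ≤ G := le_trans inf_le_left hHG
    have hfix : ∀ g : Hn, g ≠ 1 → ∃ a b : OnePoint L, ∀ x : OnePoint L,
        g • x = x ↔ (x = a ∨ x = b) := by
      rintro ⟨g, hg⟩ hg1
      obtain ⟨a, b, c, d, h', ha, hb, hc, hd, hge⟩ := hHnG hg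
      have hg1' : g ≠ 1 := by
        intro h; apply hg1; ext1; exact h
      obtain ⟨p, q, hpq⟩ := two_fix a b c d h' (by rw [← hge]; exact hg1')
      refine ⟨p, q, fun x => ?_⟩
      rw [← hpq x, ← hge]
      rfl
    have cinf : Centre Hn (OnePoint.infty : OnePoint L) := by
      refine ⟨⟨E 1, m1⟩, ?_, fun y => ?_⟩
      · intro h1
        have := congrArg Subtype.val h1
        exact one_ne_zero (E_eq_one this)
      · show E 1 • y = y ↔ _
        unfold E
        induction y using OnePoint.rec with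
        | infty => simp [smul_infty]
        | coe z =>
          rw [smul_coe]
          simp
    have crat : ∀ y : OnePoint L, Centre Hn y → Rat y := by
      rintro y ⟨⟨g, hg⟩, hg1, hg2⟩
      exact Rat_of_unique (hHnG hg) hg2
    have hωc : ¬ Centre Hn ω := fun h => hsfix ω hω (crat ω h)
    -- fixed point of h
    have hz : h • (x • (OnePoint.infty : OnePoint L)) = x • (OnePoint.infty : OnePoint L) := by
      rw [hh', mul_smul, mul_smul, inv_smul_smul]
      congr 1
      unfold D
      rw [smul_infty]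
    have hzr : Rat (x • (OnePoint.infty : OnePoint L)) := Rat_smul hx Rat_infty
    have hne1 : h ≠ 1 := by
      intro h1
      rw [hh'] at h1
      have h3 : D l hl0 = 1 := by
        have : D l hl0 = x⁻¹ * (x * D l hl0 * x⁻¹) * x := by group
        rw [this, h1]; group
      rw [mk_one] at h3
      exact hl1 (mk_inj h3).1
    have hzc : Centre Hn (x • (OnePoint.infty : OnePoint L)) := by
      by_contra hcon
      obtain ⟨g, hg⟩ := transitive_on_rest hfix cinf hcon
        ⟨⟨h, m3⟩, fun h1 => hne1 (congrArg Subtype.val h1), hz⟩ hωc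
        ⟨⟨s, m2⟩, fun h1 => hsne (congrArg Subtype.val h1), hω⟩
      apply hsfix ω hω
      rw [← hg]
      exact Rat_smul (hHnG g.2) hzr
    obtain ⟨g, hg⟩ := transitive_on_centres hfix hzc cinf
    -- conjugate
    have hg' : (g : GL2) • (x • (OnePoint.infty : OnePoint L)) = OnePoint.infty := hg
    obtain ⟨k, hk⟩ : ∃ k : GL2, k = (g : GL2) * h * (g : GL2)⁻¹ := ⟨_, rfl⟩
    have hkH : k ∈ H := by
      rw [hk]
      exact mul_mem (mul_mem g.2.1 hh) (inv_mem g.2.1)
    have hkinf : k • (OnePoint.infty : OnePoint L) = OnePoint.infty := by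
      rw [hk, mul_smul, mul_smul]
      have : (g : GL2)⁻¹ • (OnePoint.infty : OnePoint L) = x • OnePoint.infty := by
        rw [inv_smul_eq_iff]; exact hg'.symm
      rw [this, hz, hg']
    have hktr : tr k = l + l⁻¹ := by
      rw [hk, tr_conj, hh', tr_conj]; rfl
    obtain ⟨ka, kb, kc, kd, kh, hka, hkb, hkc, hkd, hke⟩ := hHG hkH
    rw [hke, smul_infty] at hkinf
    rw [hke, tr_mk] at hktr
    subst hkinf
    have hkad : ka * kd = 1 := by linear_combination kh
    have hka0 : ka ≠ 0 := by rintro rfl; simp at hkad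
    have hfac : (ka - l) * (ka - l⁻¹) = 0 := by
      have h3 : l * l⁻¹ = 1 := mul_inv_cancel₀ hl0
      linear_combination ka * hktr - hkad + h3
    rcases mul_eq_zero.mp hfac with h4 | h4
    · have h5 : ka = l := sub_eq_zero.mp h4
      have h6 : k * E 1 * k⁻¹ ∈ H := mul_mem (mul_mem hkH hE) (inv_mem hkH)
      have h7 : k * E 1 * k⁻¹ = E μ := by
        rw [hke]
        unfold E
        rw [mk_inv, mk_mul, mk_mul]
        apply mk_congr
        · linear_combination hkad
        · rw [← hlμ, ← h5]; ring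
        · ring
        · linear_combination hkad
      rwa [h7] at h6
    · have h5 : ka = l⁻¹ := sub_eq_zero.mp h4
      have h5' : kd = l := by
        have : l⁻¹ * kd = 1 := by rw [← h5]; exact hkad
        field_simp at this
        exact this
      have h6 : k⁻¹ * E 1 * k ∈ H := mul_mem (mul_mem (inv_mem hkH) hE) hkH
      have h7 : k⁻¹ * E 1 * k = E μ := by
        rw [hke]
        unfold E
        rw [mk_inv, mk_mul, mk_mul]
        apply mk_congr
        · linear_combination hkad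
        · rw [← hlμ, ← h5']; ring
        · ring
        · linear_combination hkad
      rwa [h7] at h6
  -- antidiagonal element
  have hw : ∃ (e : L) (he : e ≠ 0), e ∈ K0 ∧ mk 0 (-e⁻¹) e 0 (by field_simp; ring) ∈ H := by
    refine ⟨sc, hsc0, hsc, ?_⟩
    have h1 : E (-(sa / sc)) * s * E (-(sd / sc)) ∈ H :=
      mul_mem (mul_mem (hall _ (neg_mem (div_mem hsa hsc))) hs)
        (hall _ (neg_mem (div_mem hsd hsc)))
    have h2 : E (-(sa / sc)) * s * E (-(sd / sc)) =
        mk 0 (-sc⁻¹) sc 0 (by field_simp; ring) := by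
      rw [hse]
      unfold E
      rw [mk_mul, mk_mul]
      apply mk_congr
      · field_simp; ring
      · field_simp; linear_combination -sh
      · ring
      · field_simp; ring
    rwa [h2] at h1
  obtain ⟨e, he, heK, hwH⟩ := hw
  apply gen H hall
  intro y hy
  have h1 := mul_mem (mul_mem hwH (hall (-(y / e ^ 2)) (neg_mem (div_mem hy (pow_mem heK 2)))))
    (inv_mem hwH)
  have h2 : mk 0 (-e⁻¹) e 0 (by field_simp; ring) * E (-(y / e ^ 2)) *
      (mk 0 (-e⁻¹) e 0 (by field_simp; ring))⁻¹ = E' y := by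
    unfold E E'
    rw [mk_inv, mk_mul, mk_mul]
    apply mk_congr
    · field_simp; ring
    · field_simp; ring
    · field_simp; ring
    · field_simp; ring
  rwa [h2] at h1

/-- every subgroup of G that meets every conjugacy class is G -/
theorem main (H : Subgroup GL2) (hHG : H ≤ G) (hc : ∀ g ∈ G, ∃ x ∈ G, x * g * x⁻¹ ∈ H) :
    G ≤ H := by
  obtain ⟨x, hx, hxE⟩ := hc (E 1) (E_mem (one_mem _))
  let H' : Subgroup GL2 := H.comap (MulAut.conj x).toMonoidHom
  have hmem : ∀ g, g ∈ H' ↔ x * g * x⁻¹ ∈ H := fun g => Iff.rfl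
  have h1 : G ≤ H' := by
    apply core
    · intro g hg
      rw [hmem] at hg
      have := hHG hg
      have h2 : g = x⁻¹ * (x * g * x⁻¹) * x := by group
      rw [h2]
      exact mul_mem (mul_mem (inv_mem hx) this) hx
    · intro g hg
      obtain ⟨y, hy, hyg⟩ := hc g hg
      refine ⟨x⁻¹ * y, mul_mem (inv_mem hx) hy, ?_⟩
      rw [hmem]
      have : x * (x⁻¹ * y * g * (x⁻¹ * y)⁻¹) * x⁻¹ = y * g * y⁻¹ := by group
      rw [this]; exact hyg
    · rw [hmem]; exact hxE
  intro g hg
  have h2 := h1 (mul_mem (mul_mem (inv_mem hx) hg) hx)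
  rw [hmem] at h2
  have : x * (x⁻¹ * g * x) * x⁻¹ = g := by group
  rwa [this] at h2

end Pool.Agent.InvGen
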